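import Mathlib
import Pool.Agent.Y671.GV.Gen

/-!
# MP_45cf3b_lc: κ-complete filters no extension of which has the Galvin property

Let `κ` be a regular cardinal with `κ^{<κ} = κ` (under GCH this is every regular uncountable cardinal), and let `F₀`
be a `κ`-complete filter over `κ` for which there are `κ` pairwise disjoint positive sets. There are a proper
`κ`-complete filter `F` containing `F₀` and sets `A i` (`i` a subset of `κ`) in `F` such that for every family of `κ` of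
the sets `A i` the complement of the intersection is in `F`. So no proper filter containing `F` has the Galvin
property.

Index the disjoint positive sets `t (x, y, a)` by triples of `x, y < κ` and a subset `a` of `[0, y]`, and let `h i` be
`2^κ` functions `κ → κ` pairwise eventually different. Then `A i` is the complement of the union of the sets
`t (x, y, a)` with `h i x ∈ a`.
-/

set_option autoImplicit false

namespace Pool.Agent.Results.MP_45cf3b_lc.NoGalvinExtension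

open Cardinal Set

universe u

/-- The filter `F` over the cardinal `κ` has the Galvin property: for every sequence of `κ⁺`
members of `F` there is a set of `κ` many indices with intersection in `F`. -/
def Galvin (κ : Cardinal.{u}) (F : Filter κ.ord.ToType) : Prop :=
  ∀ A : (Order.succ κ).ord.ToType → Set κ.ord.ToType, (∀ i, A i ∈ F) →
    ∃ I : Set (Order.succ κ).ord.ToType, #I = κ ∧ ⋂ i ∈ I, A i ∈ F

/-- The filter `F` over the cardinal `κ` is `κ`-complete: the intersection of fewer than `κ`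
members of `F` is a member of `F`. -/
def Complete (κ : Cardinal.{u}) (F : Filter κ.ord.ToType) : Prop :=
  ∀ S : Set (Set κ.ord.ToType), #S < κ → (∀ s ∈ S, s ∈ F) → ⋂₀ S ∈ F

/-- The generalized continuum hypothesis. -/
def GCH : Prop := ∀ μ : Cardinal.{u}, ℵ₀ ≤ μ → (2 : Cardinal.{u}) ^ μ = Order.succ μ

/-- the `κ`-complete filter generated by `F₀`, the sets `A i`, and the complements of the intersections of `κ` of the
sets `A i` -/
def gen {κ : Cardinal.{u}} (hκ : κ.IsRegular) (F₀ : Filter κ.ord.ToType) {Λ : Type u} (A : Λ → Set κ.ord.ToType) :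
    Filter κ.ord.ToType where
  sets := {X | ∃ J : Set Λ, #J < κ ∧ ∃ T : Set (Set Λ), #T < κ ∧ (∀ I ∈ T, κ ≤ #I) ∧ ∃ Y ∈ F₀,
    ∀ z ∈ Y, (∀ j ∈ J, z ∈ A j) → (∀ I ∈ T, ∃ i ∈ I, z ∉ A i) → z ∈ X}
  univ_sets := ⟨∅, by simpa using hκ.pos, ∅, by simpa using hκ.pos, by simp, Set.univ, Filter.univ_mem,
    fun _ _ _ _ => Set.mem_univ _⟩
  sets_of_superset := by
    rintro X Y ⟨J, hJ, T, hT, hT', Z, hZ, h⟩ hXY
    exact ⟨J, hJ, T, hT, hT', Z, hZ, fun z hz hz' hz'' => hXY (h z hz hz' hz'')⟩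
  inter_sets := by
    rintro X Y ⟨J, hJ, T, hT, hT2, Z, hZ, h⟩ ⟨J', hJ', T', hT', hT2', Z', hZ', h'⟩
    refine ⟨J ∪ J', (mk_union_le J J').trans_lt (add_lt_of_lt hκ.aleph0_le hJ hJ'),
      T ∪ T', (mk_union_le T T').trans_lt (add_lt_of_lt hκ.aleph0_le hT hT'), ?_, Z ∩ Z', Filter.inter_mem hZ hZ', ?_⟩
    · rintro I (hI | hI)
      · exact hT2 I hI
      · exact hT2' I hI
    · intro z hz hz' hz''
      exact ⟨h z hz.1 (fun j hj => hz' j (Or.inl hj)) fun I hI => hz'' I (Or.inl hI),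
        h' z hz.2 (fun j hj => hz' j (Or.inr hj)) fun I hI => hz'' I (Or.inr hI)⟩

theorem mem_gen {κ : Cardinal.{u}} (hκ : κ.IsRegular) (F₀ : Filter κ.ord.ToType) {Λ : Type u}
    (A : Λ → Set κ.ord.ToType) (X : Set κ.ord.ToType) :
    X ∈ gen hκ F₀ A ↔ ∃ J : Set Λ, #J < κ ∧ ∃ T : Set (Set Λ), #T < κ ∧ (∀ I ∈ T, κ ≤ #I) ∧ ∃ Y ∈ F₀,
      ∀ z ∈ Y, (∀ j ∈ J, z ∈ A j) → (∀ I ∈ T, ∃ i ∈ I, z ∉ A i) → z ∈ X := Iff.rfl

theorem card_index {κ : Cardinal.{u}} (hκ : κ.IsRegular) (hp : κ ^< κ = κ) :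
    #(κ.ord.ToType × Σ d : κ.ord.ToType, Set (Iic d)) ≤ #(κ.ord.ToType) := by
  have h1 : ∀ d : κ.ord.ToType, #(Set (Iic d)) ≤ κ := by
    intro d
    rw [mk_set]
    have h2 : (2 : Cardinal.{u}) ^ #(Iic d) ≤ κ ^ #(Iic d) :=
      Cardinal.power_le_power_right ((Cardinal.natCast_lt_aleph0 (n := 2)).le.trans hκ.aleph0_le)
    refine h2.trans ?_
    conv_rhs => rw [← hp]
    exact le_powerlt κ (Pool.Agent.H348R6.GV.mk_Iic_lt hκ d)
  have h3 : #(Σ d : κ.ord.ToType, Set (Iic d)) ≤ κ := by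
    rw [mk_sigma]
    refine (sum_le_sum _ (fun _ => κ) h1).trans ?_
    rw [sum_const, lift_id, lift_id, Cardinal.mk_toType, card_ord, mul_eq_self hκ.aleph0_le]
  rw [mk_prod, lift_id, lift_id, Cardinal.mk_toType, card_ord]
  exact (mul_le_mul_right h3 κ).trans (mul_eq_self hκ.aleph0_le).le

theorem gch_powerlt (hG : GCH.{u}) (κ : Cardinal.{u}) (hκ : κ.IsRegular) (hω : ℵ₀ < κ) : κ ^< κ = κ := by
  refine le_antisymm ?_ ?_
  · refine powerlt_le.2 fun c hc => ?_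
    -- functions from a set of size `c` are bounded
    obtain ⟨ι, rfl⟩ : ∃ ι : Type u, #ι = c := ⟨c.out, mk_out c⟩
    have h1 : #(ι → κ.ord.ToType) ≤ #(Σ b : κ.ord.ToType, (ι → Iic b)) := by
      have hb : ∀ f : ι → κ.ord.ToType, ∃ b, ∀ i, f i ≤ b := fun f => by
        obtain ⟨b, hb⟩ := Pool.Agent.H348R6.GV.bdd_of_lt hκ f hc
        exact ⟨b, fun i => (hb i).le⟩
      choose b hb using hb
      refine mk_le_of_injective (f := fun f => (⟨b f, fun i => ⟨f i, hb f i⟩⟩ : Σ b : κ.ord.ToType, (ι → Iic b))) ?_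
      intro f g hfg
      have h2 : ∀ p : Σ b : κ.ord.ToType, (ι → Iic b), ∀ q, p = q → ∀ i, (p.2 i).1 = (q.2 i).1 := by
        rintro p q rfl i
        rfl
      funext i
      exact h2 _ _ hfg i
    have h2 : ∀ b : κ.ord.ToType, #(ι → Iic b) ≤ κ := by
      intro b
      have hb := Pool.Agent.H348R6.GV.mk_Iic_lt hκ b
      set m : Cardinal.{u} := max ℵ₀ (max #(Iic b) #ι) with hm
      have hmκ : m < κ := max_lt hω (max_lt hb hc)
      have hm0 : ℵ₀ ≤ m := le_max_left _ _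
      calc #(ι → Iic b) = #(Iic b) ^ #ι := by simp
        _ ≤ m ^ #ι := Cardinal.power_le_power_right ((le_max_left _ _).trans (le_max_right _ _))
        _ ≤ m ^ m := Cardinal.power_le_power_left (aleph0_pos.trans_le hm0).ne'
            ((le_max_right _ _).trans (le_max_right _ _))
        _ = 2 ^ m := by rw [Cardinal.power_self_eq hm0]
        _ = Order.succ m := hG m hm0
        _ ≤ κ := Order.succ_le_of_lt hmκ
    calc κ ^ #ι = #(ι → κ.ord.ToType) := by simp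
      _ ≤ _ := h1
      _ = sum fun b : κ.ord.ToType => #(ι → Iic b) := mk_sigma _
      _ ≤ sum fun _ : κ.ord.ToType => κ := sum_le_sum _ _ h2
      _ = κ := by rw [sum_const, lift_id, lift_id, Cardinal.mk_toType, card_ord, mul_eq_self hκ.aleph0_le]
  · have := le_powerlt κ (c := 1) (b := κ) (one_lt_aleph0.trans_le hκ.aleph0_le)
    simpa using this

theorem extend {κ : Cardinal.{u}} (hκ : κ.IsRegular) (hp : κ ^< κ = κ) (F₀ : Filter κ.ord.ToType)
    (hc : Complete κ F₀) (S : κ.ord.ToType → Set κ.ord.ToType) (hd : ∀ x y, x ≠ y → Disjoint (S x) (S y))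
    (hpos : ∀ x, (S x)ᶜ ∉ F₀) :
    ∃ F : Filter κ.ord.ToType, F ≤ F₀ ∧ F.NeBot ∧ Complete κ F ∧
      ∃ A : Set κ.ord.ToType → Set κ.ord.ToType, (∀ i, A i ∈ F) ∧
        ∀ I : Set (Set κ.ord.ToType), κ ≤ #I → (⋂ i ∈ I, A i)ᶜ ∈ F := by
  classical
  obtain ⟨h, hh⟩ := Pool.Agent.Y671.GV.evdiff_two hκ hp
  obtain ⟨e⟩ := card_index hκ hp
  let t : κ.ord.ToType × (Σ d : κ.ord.ToType, Set (Iic d)) → Set κ.ord.ToType := fun p => S (e p)
  have htd : ∀ p q, p ≠ q → Disjoint (t p) (t q) := fun p q hpq => hd _ _ fun h => hpq (e.injective h)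
  -- membership in the coded set
  let M : (Set κ.ord.ToType) → κ.ord.ToType × (Σ d : κ.ord.ToType, Set (Iic d)) → Prop :=
    fun i p => ∃ w ∈ p.2.2, w.1 = h i p.1
  let A : Set κ.ord.ToType → Set κ.ord.ToType := fun i => (⋃ p, ⋃ (_ : M i p), t p)ᶜ
  have hA : ∀ i p z, z ∈ t p → (z ∈ A i ↔ ¬ M i p) := by
    intro i p z hz
    constructor
    · intro h1 h2
      exact h1 (mem_iUnion₂.2 ⟨p, h2, hz⟩)
    · intro h1 h2
      obtain ⟨q, hq, hzq⟩ := mem_iUnion₂.1 h2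
      by_cases hpq : p = q
      · exact h1 (hpq ▸ hq)
      · exact Set.disjoint_left.1 (htd _ _ hpq) hz hzq
  have hcon : ∀ (p : κ.ord.ToType × (Σ d : κ.ord.ToType, Set (Iic d))) (Y : Set κ.ord.ToType), Y ∈ F₀ →
      ∃ z ∈ Y, z ∈ t p := by
    intro p Y hY
    by_contra hcon
    push Not at hcon
    exact hpos (e p) (Filter.mem_of_superset hY fun z hz => hcon z hz)
  refine ⟨gen hκ F₀ A, ?_, ?_, ?_, A, ?_, ?_⟩
  · intro X hX
    exact (mem_gen _ _ _ _).2 ⟨∅, by simpa using hκ.pos, ∅, by simpa using hκ.pos, by simp, X, hX,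
      fun z hz _ _ => hz⟩
  · rw [Filter.neBot_iff]
    intro hbot
    have h0 : (∅ : Set κ.ord.ToType) ∈ gen hκ F₀ A := by rw [hbot]; trivial
    obtain ⟨J, hJ, T, hT, hT2, Y, hY, hJY⟩ := (mem_gen _ _ _ _).1 h0
    have hex : ∀ I : T, ∃ i ∈ I.1, i ∉ J := by
      rintro ⟨I, hI⟩
      by_contra hcon
      push Not at hcon
      have := mk_le_mk_of_subset (s := I) (t := J) hcon
      exact absurd (((hT2 I hI).trans this).trans_lt hJ) (lt_irrefl _)
    choose i hiI hiJ using hex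
    have hb : ∀ q : T × J, ∃ b, ∀ a, b ≤ a → h (i q.1) a ≠ h q.2.1 a := by
      rintro ⟨I, j, hj⟩
      exact hh _ _ fun h1 => hiJ I (h1 ▸ hj)
    choose b hb using hb
    obtain ⟨x, hx⟩ := Pool.Agent.H348R6.GV.bdd_of_lt hκ b (by
      rw [mk_prod, lift_id, lift_id]
      exact mul_lt_of_lt hκ.aleph0_le hT hJ)
    obtain ⟨y, hy⟩ := Pool.Agent.H348R6.GV.bdd_of_lt hκ (fun I : T => h (i I) x) hT
    obtain ⟨z, hz, hz'⟩ := hcon (x, ⟨y, {w | ∃ I : T, w.1 = h (i I) x}⟩) Y hY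
    refine hJY z hz (fun j hj => ?_) fun I hI => ?_
    · rw [hA j _ z hz']
      rintro ⟨w, ⟨I, hw⟩, hw'⟩
      exact hb (I, ⟨j, hj⟩) x (hx (I, ⟨j, hj⟩)).le (hw.symm.trans hw')
    · refine ⟨i ⟨I, hI⟩, hiI ⟨I, hI⟩, ?_⟩
      rw [hA _ _ z hz', not_not]
      exact ⟨⟨h (i ⟨I, hI⟩) x, (hy ⟨I, hI⟩).le⟩, ⟨⟨I, hI⟩, rfl⟩, rfl⟩
  · intro W hW hWF
    choose! J hJ T hT hT2 Y hY hJY using fun s (hs : s ∈ W) => (mem_gen _ _ _ _).1 (hWF s hs)
    refine (mem_gen _ _ _ _).2 ⟨⋃ s : W, J s.1, ?_, ⋃ s : W, T s.1, ?_, ?_, ⋂₀ ((fun s => Y s) '' W),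
      hc _ (mk_image_le.trans_lt hW) ?_, ?_⟩
    · exact (card_iUnion_lt_iff_forall_of_isRegular hκ hW).2 (fun s => hJ s.1 s.2)
    · exact (card_iUnion_lt_iff_forall_of_isRegular hκ hW).2 (fun s => hT s.1 s.2)
    · intro I hI
      obtain ⟨s, hs⟩ := mem_iUnion.1 hI
      exact hT2 s.1 s.2 I hs
    · rintro _ ⟨s, hs, rfl⟩
      exact hY s hs
    · intro z hz hz' hz'' s hs
      exact hJY s hs z (hz _ ⟨s, hs, rfl⟩) (fun j hj => hz' j (Set.mem_iUnion.2 ⟨⟨s, hs⟩, hj⟩))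
        fun I hI => hz'' I (Set.mem_iUnion.2 ⟨⟨s, hs⟩, hI⟩)
  · intro i
    exact (mem_gen _ _ _ _).2 ⟨{i}, by simpa using one_lt_aleph0.trans_le hκ.aleph0_le, ∅,
      by simpa using hκ.pos, by simp, Set.univ, Filter.univ_mem, fun z _ hz _ => hz i rfl⟩
  · intro I hI
    refine (mem_gen _ _ _ _).2 ⟨∅, by simpa using hκ.pos, {I}, by simpa using one_lt_aleph0.trans_le hκ.aleph0_le,
      by simpa using hI, Set.univ, Filter.univ_mem, fun z _ _ hz => ?_⟩
    obtain ⟨i, hi, hzi⟩ := hz I rfl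
    intro h1
    exact hzi (mem_iInter₂.1 h1 i hi)

/-- no proper filter containing such a filter has the Galvin property -/
theorem not_galvin {κ : Cardinal.{u}} (F : Filter κ.ord.ToType)
    (A : Set κ.ord.ToType → Set κ.ord.ToType) (hA : ∀ i, A i ∈ F)
    (hI : ∀ I : Set (Set κ.ord.ToType), κ ≤ #I → (⋂ i ∈ I, A i)ᶜ ∈ F) (F' : Filter κ.ord.ToType) (hF : F' ≤ F)
    (hF' : F'.NeBot) : ¬ Galvin κ F' := by
  intro hG
  have h1 : #((Order.succ κ).ord.ToType) ≤ #(Set κ.ord.ToType) := by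
    rw [Cardinal.mk_toType, card_ord, mk_set, Cardinal.mk_toType, card_ord]
    exact Order.succ_le_of_lt (cantor κ)
  obtain ⟨f⟩ := h1
  obtain ⟨I, hI1, hI2⟩ := hG (fun i => A (f i)) fun i => hF (hA _)
  have h2 : (⋂ i ∈ f '' I, A i)ᶜ ∈ F' := hF (hI _ (by rw [mk_image_eq f.injective, hI1]))
  have h3 : (⋂ i ∈ f '' I, A i) = ⋂ i ∈ I, A (f i) := by
    rw [biInter_image]
  rw [h3] at h2
  have h4 := Filter.inter_mem hI2 h2
  rw [inter_compl_self] at h4
  exact Filter.empty_notMem F' h4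

/-- Assume GCH and let `κ` be a regular uncountable cardinal. Then there is a proper `κ`-complete filter over `κ`,
containing all club sets, such that no proper filter containing it has the Galvin property. More generally: if
`κ^{<κ} = κ`, then every `κ`-complete filter for which there are `κ` pairwise disjoint positive sets is contained in a
proper `κ`-complete filter `F` with members `A i` (`i` a subset of `κ`) such that the complement of the intersection of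
any `κ` (or more) of the sets `A i` is in `F`; and no proper filter containing `F` has the Galvin property. -/
theorem result :
    (GCH.{u} → ∀ κ : Cardinal.{u}, κ.IsRegular → ℵ₀ < κ → ∃ F : Filter κ.ord.ToType, F.NeBot ∧ Complete κ F ∧
      (∀ C, IsClub C → C ∈ F) ∧ ∀ F' : Filter κ.ord.ToType, F'.NeBot → (∀ X ∈ F, X ∈ F') → ¬ Galvin κ F') ∧
    ∀ κ : Cardinal.{u}, κ.IsRegular → κ ^< κ = κ → ∀ F₀ : Filter κ.ord.ToType, Complete κ F₀ →
      (∃ S : κ.ord.ToType → Set κ.ord.ToType, (∀ x y, x ≠ y → Disjoint (S x) (S y)) ∧ ∀ x, (S x)ᶜ ∉ F₀) →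
      ∃ F : Filter κ.ord.ToType, (∀ X ∈ F₀, X ∈ F) ∧ F.NeBot ∧ Complete κ F ∧
        (∃ A : Set κ.ord.ToType → Set κ.ord.ToType, (∀ i, A i ∈ F) ∧
          ∀ I : Set (Set κ.ord.ToType), κ ≤ #I → (⋂ i ∈ I, A i)ᶜ ∈ F) ∧
        ∀ F' : Filter κ.ord.ToType, F'.NeBot → (∀ X ∈ F, X ∈ F') → ¬ Galvin κ F' := by
  have main : ∀ κ : Cardinal.{u}, κ.IsRegular → κ ^< κ = κ → ∀ F₀ : Filter κ.ord.ToType, Complete κ F₀ →
      (∃ S : κ.ord.ToType → Set κ.ord.ToType, (∀ x y, x ≠ y → Disjoint (S x) (S y)) ∧ ∀ x, (S x)ᶜ ∉ F₀) →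
      ∃ F : Filter κ.ord.ToType, (∀ X ∈ F₀, X ∈ F) ∧ F.NeBot ∧ Complete κ F ∧
        (∃ A : Set κ.ord.ToType → Set κ.ord.ToType, (∀ i, A i ∈ F) ∧
          ∀ I : Set (Set κ.ord.ToType), κ ≤ #I → (⋂ i ∈ I, A i)ᶜ ∈ F) ∧
        ∀ F' : Filter κ.ord.ToType, F'.NeBot → (∀ X ∈ F, X ∈ F') → ¬ Galvin κ F' := by
    rintro κ hκ hp F₀ hc ⟨S, hS, hS'⟩
    obtain ⟨F, h1, h2, h3, A, h4, h5⟩ := extend hκ hp F₀ hc S hS hS'
    exact ⟨F, fun X hX => h1 hX, h2, h3, ⟨A, h4, h5⟩, fun F' hF' h => not_galvin F A h4 h5 F' (fun X hX => h X hX) hF'⟩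
  refine ⟨fun hG κ hκ hω => ?_, main⟩
  obtain ⟨P, hP, hPd⟩ := Pool.Agent.Y671.GV.clubOn_positive hκ hω Set.univ (by
    rw [Set.univ_inter]
    exact Pool.Agent.Y671.GV.stationary_E hκ hω)
  obtain ⟨F, h1, h2, h3, -, h4⟩ := main κ hκ (gch_powerlt hG κ hκ hω) (Pool.Agent.Y671.GV.clubOn hκ hω Set.univ)
    (Pool.Agent.Y671.GV.clubOn_complete hκ hω Set.univ) ⟨P, hPd, hP⟩
  exact ⟨F, h2, h3, fun C hC => h1 C ⟨C, hC, inter_subset_left⟩, h4⟩

end Pool.Agent.Results.MP_45cf3b_lc.NoGalvinExtension
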